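import Mathlib

/-!
# Large Cantor cubes which are D-separable
-/

set_option autoImplicit false

open Cardinal Set Topology

namespace Pool.Agent.W648.DSep

/-- The sizes used in the construction: `mu J j` is the successor of
`2 ^ 2 ^ (#J + the sum of all mu J i, i < j)`. -/
noncomputable def mu (J : Type) [LinearOrder J] [WellFoundedLT J] : J → Cardinal.{0} :=
  (wellFounded_lt (α := J)).fix
    (fun j IH => Order.succ (2 ^ ((2 : Cardinal.{0}) ^ (#J + Cardinal.sum (fun i : Iio j => IH i.1 i.2)))))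

theorem mu_eq (J : Type) [LinearOrder J] [WellFoundedLT J] (j : J) :
    mu J j = Order.succ (2 ^ ((2 : Cardinal.{0}) ^
      (#J + Cardinal.sum (fun i : Iio j => mu J i.1)))) := by
  unfold mu
  rw [WellFounded.fix_eq]

/-- If all pairs of a set of size more than `2 ^ #C` are coloured with `C`, then there are
`x < y < z` such that the pairs `x, y` and `y, z` have the same colour. -/
theorem shift {S C : Type} (f : S → S → C) (h : 2 ^ #C < #S) :
    ∃ x y z : S, x ≠ y ∧ y ≠ z ∧ f x y = f y z := by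
  classical
  let _ : LinearOrder S := linearOrderOfSTO (WellOrderingRel : S → S → Prop)
  by_contra hne
  push Not at hne
  have hinj : Function.Injective (fun y : S => {c : C | ∃ x, x < y ∧ f x y = c}) := by
    have key : ∀ y z : S, y < z → {c : C | ∃ x, x < y ∧ f x y = c} ≠
        {c : C | ∃ x, x < z ∧ f x z = c} := by
      intro y z hyz heq
      have h1 : f y z ∈ {c : C | ∃ x, x < z ∧ f x z = c} := ⟨y, hyz, rfl⟩
      rw [← heq] at h1
      obtain ⟨x, hxy, hx⟩ := h1
      exact hne x y z hxy.ne hyz.ne hx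
    intro y z hyz
    by_contra hyz'
    rcases lt_or_gt_of_ne hyz' with h1 | h1
    · exact key y z h1 hyz
    · exact key z y h1 hyz.symm
  have h2 := Cardinal.mk_le_of_injective hinj
  rw [Cardinal.mk_set] at h2
  exact absurd h2 (not_le.2 h)

theorem isOpen_coord {ι : Type} (i : ι) (b : Bool) : IsOpen {x : ι → Bool | x i = b} := by
  have h : Continuous (fun x : ι → Bool => x i) := continuous_apply i
  exact h.isOpen_preimage {b} (isOpen_discrete _)

theorem choice_discrete {ι J : Type} [Nonempty ι] [LinearOrder J] [WellFoundedLT J] [Infinite J]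
    (E : J → Set (ι → Bool)) (hE : ∀ j, #(E j) = mu J j) :
    ∃ x : J → (ι → Bool), (∀ j, x j ∈ E j) ∧
      ∀ j, ∃ W : Set (ι → Bool), IsOpen W ∧ x j ∈ W ∧ ∀ i, i ≠ j → x i ∉ W := by
  classical
  have hc : ∀ x y : ι → Bool, ∃ ξ : ι, x ≠ y → x ξ ≠ y ξ := by
    intro x y
    by_cases h : x = y
    · exact ⟨Classical.arbitrary ι, fun h' => absurd h h'⟩
    · obtain ⟨ξ, hξ⟩ := Function.ne_iff.1 h
      exact ⟨ξ, fun _ => hξ⟩
  choose c hc using hc
  set L : J → Set (ι → Bool) := fun j => ⋃ i : Iio j, E i.1 with hL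
  set ν : J → Cardinal.{0} := fun j => #J + Cardinal.sum (fun i : Iio j => mu J i.1) with hν
  have hJ : ∀ j, #J ≤ ν j := fun j => self_le_add_right _ _
  have hν0 : ∀ j, ℵ₀ ≤ ν j := fun j => (Cardinal.aleph0_le_mk J).trans (hJ j)
  have hL1 : ∀ j, #(L j) ≤ ν j := by
    intro j
    refine (Cardinal.mk_iUnion_le_sum_mk).trans ?_
    simp only [hE]
    exact self_le_add_left _ _
  have hEL : ∀ i j, i < j → E i ⊆ L j := by
    intro i j hij
    exact subset_iUnion (fun i : Iio j => E i.1) ⟨i, hij⟩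
  set C : J → Set ι := fun j => Set.image2 c (L j) (L j) with hC
  have hC1 : ∀ j, #(C j) ≤ ν j := by
    intro j
    have : #(C j) ≤ #(L j) * #(L j) := by
      rw [show #(L j) * #(L j) = #((L j) × (L j)) from Cardinal.mul_def _ _]
      refine Cardinal.mk_le_of_surjective (f := fun p : (L j) × (L j) =>
        (⟨c p.1.1 p.2.1, Set.mem_image2_of_mem p.1.2 p.2.2⟩ : C j)) ?_
      rintro ⟨ξ, x, hx, y, hy, rfl⟩
      exact ⟨(⟨x, hx⟩, ⟨y, hy⟩), rfl⟩
    exact this.trans ((mul_le_mul' (hL1 j) (hL1 j)).trans (Cardinal.mul_eq_self (hν0 j)).le)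
  -- first shrinking
  have h1 : ∀ j, ∃ E' : Set (ι → Bool), E' ⊆ E j ∧ 2 ^ ((2 : Cardinal.{0}) ^ ν j) < #E' ∧
      ∀ z ∈ E', ∀ z' ∈ E', ∀ ξ ∈ C j, z ξ = z' ξ := by
    intro j
    have hreg : (mu J j).IsRegular := by
      rw [mu_eq]
      exact Cardinal.isRegular_succ ((hν0 j).trans ((Cardinal.cantor _).le.trans
        (Cardinal.cantor _).le))
    have hcard : #(C j → Bool) < (mu J j).ord.cof := by
      rw [hreg.cof_ord, mu_eq]
      refine lt_of_le_of_lt ?_ (Order.lt_succ _)
      have : #(C j → Bool) = 2 ^ #(C j) := by simp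
      rw [this]
      refine (Cardinal.power_le_power_left two_ne_zero (hC1 j)).trans (Cardinal.cantor _).le
    obtain ⟨a, t, ht, hta, hf⟩ := Cardinal.infinite_pigeonhole_set
      (fun z : E j => (fun ξ : C j => z.1 ξ.1)) (mu J j) (hE j).ge hreg.1 hcard
    refine ⟨t, ht, ?_, ?_⟩
    · refine lt_of_lt_of_le ?_ hta
      rw [mu_eq]
      exact Order.lt_succ _
    · intro z hz z' hz' ξ hξ
      have e1 := congrFun (hf hz) ⟨ξ, hξ⟩
      have e2 := congrFun (hf hz') ⟨ξ, hξ⟩
      simp only at e1 e2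
      rw [e1, e2]
  choose E' hE'E hE'card hE'C using h1
  have hne : ∀ j, ∃ r, r ∈ E' j := by
    intro j
    have : (E' j).Nonempty := by
      rw [Set.nonempty_iff_ne_empty]
      intro h0
      have := hE'card j
      rw [h0] at this
      simp at this
    exact this
  choose rep hrep using hne
  -- the path
  have h2 : ∀ j, ∃ x ∈ E' j, ∃ y ∈ E' j, ∃ z ∈ E' j, x ≠ y ∧ y ≠ z ∧
      (∀ u ∈ L j, (u (c x y) = x (c x y) ↔ u (c y z) = y (c y z))) ∧
      (∀ i, (rep i (c x y) = x (c x y) ↔ rep i (c y z) = y (c y z))) := by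
    intro j
    let el : (L j) ⊕ J → (ι → Bool) := Sum.elim (fun u => u.1) rep
    have hcol : 2 ^ #(Set ((L j) ⊕ J)) < #(E' j) := by
      refine lt_of_le_of_lt ?_ (hE'card j)
      rw [Cardinal.mk_set]
      refine Cardinal.power_le_power_left two_ne_zero
        (Cardinal.power_le_power_left two_ne_zero ?_)
      rw [Cardinal.mk_sum, Cardinal.lift_id, Cardinal.lift_id]
      exact (add_le_add (hL1 j) (hJ j)).trans (Cardinal.add_eq_self (hν0 j)).le
    obtain ⟨x, y, z, hxy, hyz, hf⟩ := shift (S := E' j)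
      (fun x y => {u : (L j) ⊕ J | el u (c x.1 y.1) = x.1 (c x.1 y.1)}) hcol
    refine ⟨x.1, x.2, y.1, y.2, z.1, z.2, fun h => hxy (Subtype.ext h),
      fun h => hyz (Subtype.ext h), ?_, ?_⟩
    · intro u hu
      have := Set.ext_iff.1 hf (Sum.inl ⟨u, hu⟩)
      exact this
    · intro i
      have := Set.ext_iff.1 hf (Sum.inr i)
      exact this
  choose x hx y hy z hz hxy hyz hLj hrj using h2
  refine ⟨y, fun j => hE'E j (hy j), fun j => ?_⟩
  refine ⟨{w | w (c (x j) (y j)) = y j (c (x j) (y j)) ∧ w (c (y j) (z j)) = y j (c (y j) (z j))},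
    ?_, ⟨rfl, rfl⟩, ?_⟩
  · apply IsOpen.and
    · exact isOpen_coord _ _
    · exact isOpen_coord _ _
  · rintro i hij ⟨hw1, hw2⟩
    have hxy' := hc (x j) (y j) (hxy j)
    rcases lt_or_gt_of_ne hij with h | h
    · have hmem : y i ∈ L j := hEL i j h (hE'E i (hy i))
      have h3 := (hLj j (y i) hmem).2 hw2
      exact hxy' (h3.symm.trans hw1)
    · have hxL : x j ∈ L i := hEL j i h (hE'E j (hx j))
      have hyL : y j ∈ L i := hEL j i h (hE'E j (hy j))
      have hzL : z j ∈ L i := hEL j i h (hE'E j (hz j))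
      have a1 := hE'C i (y i) (hy i) (rep i) (hrep i) _ (Set.mem_image2_of_mem hxL hyL)
      have a2 := hE'C i (y i) (hy i) (rep i) (hrep i) _ (Set.mem_image2_of_mem hyL hzL)
      rw [a1] at hw1
      rw [a2] at hw2
      have h3 := (hrj j i).2 hw2
      exact hxy' (h3.symm.trans hw1)

/-- The cardinals `kap n`. -/
noncomputable def kap : ℕ → Cardinal.{0}
  | 0 => ℵ₀
  | n + 1 => 2 ^ kap n + Cardinal.sum (mu (kap n).ord.ToType)

theorem kap_lt_succ (n : ℕ) : kap n < kap (n + 1) := by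
  rw [kap]
  exact (Cardinal.cantor _).trans_le (self_le_add_right _ _)

theorem two_pow_kap_le (n : ℕ) : 2 ^ kap n ≤ kap (n + 1) := by
  conv_rhs => rw [kap]
  exact self_le_add_right _ _

theorem mu_le_kap (n : ℕ) (j : (kap n).ord.ToType) : mu _ j ≤ kap (n + 1) := by
  conv_rhs => rw [kap]
  exact (Cardinal.le_sum (mu (kap n).ord.ToType) j).trans (self_le_add_left _ _)

theorem kap_mono : StrictMono kap := strictMono_nat_of_lt_succ kap_lt_succ

theorem aleph0_le_kap (n : ℕ) : ℵ₀ ≤ kap n := by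
  have := kap_mono.monotone (Nat.zero_le n)
  simpa [kap] using this

/-- The set of coordinates. -/
abbrev Idx : Type := Σ n : ℕ, (kap n).out

theorem kap_le_idx (n : ℕ) : kap n ≤ #Idx := by
  have : #((kap n).out) ≤ #Idx := Cardinal.mk_le_of_injective (f := fun a => (⟨n, a⟩ : Idx))
    (fun a b h => by simpa using h)
  simpa using this

instance : Infinite Idx := Cardinal.infinite_iff.2 ((aleph0_le_kap 0).trans (kap_le_idx 0))

/-- Initial pieces of the set of coordinates. -/
abbrev Ini (n : ℕ) : Set Idx := {i | i.1 ≤ n}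

theorem mk_ini (n : ℕ) : #(Ini n) ≤ kap n := by
  have h1 : #(Ini n) ≤ #(Σ m : Fin (n + 1), (kap m.1).out) := by
    refine Cardinal.mk_le_of_injective (f := fun i : Ini n =>
      (⟨⟨i.1.1, Nat.lt_succ_of_le i.2⟩, i.1.2⟩ : Σ m : Fin (n + 1), (kap m.1).out)) ?_
    rintro ⟨⟨a, b⟩, h⟩ ⟨⟨a', b'⟩, h'⟩ heq
    simp only [Sigma.mk.injEq, Fin.mk.injEq] at heq
    obtain ⟨rfl, hb⟩ := heq
    simp only [heq_eq_eq] at hb
    subst hb
    rfl
  refine h1.trans ?_
  rw [Cardinal.mk_sigma]
  simp only [Cardinal.mk_out]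
  refine (Cardinal.sum_le_sum _ (fun _ => kap n) (fun m => kap_mono.monotone
    (Nat.lt_succ_iff.1 m.2))).trans ?_
  rw [Cardinal.sum_const, Cardinal.lift_id, Cardinal.lift_id]
  refine (mul_le_mul' (b := kap n) ((Cardinal.lt_aleph0_of_finite _).le.trans (aleph0_le_kap n))
    le_rfl).trans (Cardinal.mul_eq_self (aleph0_le_kap n)).le

/-- Basic open sets. -/
def O {ι : Type} (s t : Finset ι) : Set (ι → Bool) :=
  {x | ∀ i ∈ s, (x i = true ↔ i ∈ t)}

theorem isOpen_O {ι : Type} (s t : Finset ι) : IsOpen (O s t) := by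
  classical
  have : O s t = ⋂ i ∈ s, {x : ι → Bool | x i = decide (i ∈ t)} := by
    ext x
    simp only [O, Set.mem_ofPred_eq, Set.mem_iInter]
    refine forall₂_congr (fun i _ => ?_)
    by_cases h : i ∈ t <;> simp [h]
  rw [this]
  exact isOpen_biInter_finset (fun i _ => isOpen_coord _ _)

open Classical in
theorem exists_O_subset {ι : Type} {U : Set (ι → Bool)} (hU : IsOpen U) {p : ι → Bool}
    (hp : p ∈ U) : ∃ s : Finset ι, p ∈ O s (s.filter (fun i => p i = true)) ∧
      O s (s.filter (fun i => p i = true)) ⊆ U := by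
  obtain ⟨s, u, hu, hsub⟩ := isOpen_pi_iff.1 hU p hp
  refine ⟨s, ?_, ?_⟩
  · intro i hi
    simp [hi]
  · intro x hx
    apply hsub
    intro i hi
    have hi' : i ∈ s := hi
    have := hx i hi
    have hxi : x i = p i := by
      rw [Finset.mem_filter] at this
      cases h : p i <;> cases h' : x i <;> simp_all
    rw [hxi]
    exact (hu i hi).2

open Classical in
theorem big (D : Set (Idx → Bool)) (hD : Dense D) (s t : Finset Idx) (n : ℕ) :
    kap n ≤ #(↥(D ∩ O s t)) := by
  by_contra hlt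
  push Not at hlt
  let g : ↥((s : Set Idx)ᶜ) → Set ↥(D ∩ O s t) := fun ξ => {x | x.1 ξ.1 = true}
  have hg : Function.Injective g := by
    intro ξ η hξη
    by_contra hne
    have hne' : ξ.1 ≠ η.1 := fun h => hne (Subtype.ext h)
    have hopen : IsOpen (O s t ∩ {x : Idx → Bool | x ξ.1 = true} ∩
        {x : Idx → Bool | x η.1 = false}) := by
      exact ((isOpen_O s t).inter (isOpen_coord _ _)).inter (isOpen_coord _ _)
    have hnon : (O s t ∩ {x : Idx → Bool | x ξ.1 = true} ∩
        {x : Idx → Bool | x η.1 = false}).Nonempty := by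
      refine ⟨fun i => if i = ξ.1 then true else if i = η.1 then false else decide (i ∈ t),
        ⟨?_, ?_⟩, ?_⟩
      · intro i hi
        have h1 : i ≠ ξ.1 := by rintro rfl; exact ξ.2 hi
        have h2 : i ≠ η.1 := by rintro rfl; exact η.2 hi
        simp [h1, h2]
      · simp
      · simp [hne'.symm]
    obtain ⟨x, ⟨⟨hx1, hx2⟩, hx3⟩, hxD⟩ := hD.inter_open_nonempty _ hopen hnon
    have hmem : (⟨x, hxD, hx1⟩ : ↥(D ∩ O s t)) ∈ g ξ := hx2
    rw [hξη] at hmem
    have h4 : x η.1 = true := hmem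
    rw [show x η.1 = false from hx3] at h4
    exact Bool.false_ne_true h4
  have h1 := Cardinal.mk_le_of_injective hg
  rw [Cardinal.mk_set] at h1
  have h2 : #(↥((s : Set Idx)ᶜ)) = #Idx := Cardinal.mk_compl_finset_of_infinite s
  rw [h2] at h1
  have h3 : #Idx ≤ kap (n + 1) :=
    h1.trans ((Cardinal.power_le_power_left two_ne_zero hlt.le).trans (two_pow_kap_le n))
  exact absurd (h3.trans_lt (kap_lt_succ (n + 1))) (not_lt.2 (kap_le_idx (n + 2)))

open Classical in
/-- One step: a dense set `D` contains a discrete subset meeting all basic open sets with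
coordinates in `Ini n`. -/
theorem step (D : Set (Idx → Bool)) (hD : Dense D) (n : ℕ) :
    ∃ F : Set (Idx → Bool), F ⊆ D ∧ DiscreteTopology F ∧
      ∀ s t : Finset Idx, (∀ i ∈ s, i ∈ Ini n) → (∀ i ∈ t, i ∈ Ini n) → (F ∩ O s t).Nonempty := by
  let J := (kap n).ord.ToType
  have hJ : #J = kap n := by simp [J]
  have : Infinite J := Cardinal.infinite_iff.2 (by rw [hJ]; exact aleph0_le_kap n)
  let P := Finset (Ini n) × Finset (Ini n)
  have : Infinite (Ini n) := by
    have : Infinite ((kap 0).out) := Cardinal.infinite_iff.2 (by simpa using aleph0_le_kap 0)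
    exact Infinite.of_injective (fun a : (kap 0).out => (⟨⟨0, a⟩, Nat.zero_le n⟩ : Ini n))
      (fun a b h => by simpa using h)
  have hP : #P ≤ #J := by
    rw [hJ, Cardinal.mk_prod, Cardinal.lift_id, Cardinal.mk_finset_of_infinite]
    exact (mul_le_mul' (mk_ini n) (mk_ini n)).trans (Cardinal.mul_eq_self (aleph0_le_kap n)).le
  obtain ⟨emb⟩ := hP
  have hsurj : Function.Surjective (Function.invFun emb) := Function.invFun_surjective emb.injective
  set e : J → P := Function.invFun emb with he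
  have hbig : ∀ j : J, ∃ E : Set (Idx → Bool), E ⊆ D ∩ O ((e j).1.map (Function.Embedding.subtype _))
      ((e j).2.map (Function.Embedding.subtype _)) ∧ #E = mu J j := by
    intro j
    exact Cardinal.le_mk_iff_exists_subset.1 ((mu_le_kap n j).trans (big D hD _ _ (n + 1)))
  choose E hE hEc using hbig
  obtain ⟨x, hx, hW⟩ := choice_discrete E hEc
  refine ⟨Set.range x, ?_, ?_, ?_⟩
  · rintro _ ⟨j, rfl⟩
    exact (hE j (hx j)).1
  · refine discreteTopology_iff_isOpen_singleton.2 ?_
    rintro ⟨_, j, rfl⟩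
    obtain ⟨W, hWo, hjW, hiW⟩ := hW j
    refine isOpen_induced_iff.2 ⟨W, hWo, ?_⟩
    ext ⟨w, i, rfl⟩
    rw [Set.mem_preimage, Set.mem_singleton_iff]
    constructor
    · intro h
      by_contra hne
      refine hiW i (fun h' => hne ?_) h
      subst h'
      rfl
    · intro h
      have h' : x i = x j := congrArg Subtype.val h
      change x i ∈ W
      rw [h']; exact hjW
  · intro s t hs ht
    obtain ⟨j, hj⟩ := hsurj (s.subtype (· ∈ Ini n), t.subtype (· ∈ Ini n))
    refine ⟨x j, ⟨j, rfl⟩, ?_⟩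
    have := (hE j (hx j)).2
    have e1 : (e j).1.map (Function.Embedding.subtype _) = s := by
      rw [hj]
      exact Finset.subtype_map_of_mem hs
    have e2 : (e j).2.map (Function.Embedding.subtype _) = t := by
      rw [hj]
      exact Finset.subtype_map_of_mem ht
    rw [e1, e2] at this
    exact this

/-- The Cantor cube is D-separable. -/
theorem dSeparable (D : ℕ → Set (Idx → Bool)) (hD : ∀ n, Dense (D n)) :
    ∃ F : ℕ → Set (Idx → Bool), (∀ n, F n ⊆ D n ∧ DiscreteTopology (F n)) ∧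
      Dense (⋃ n, F n) := by
  classical
  choose F hF1 hF2 hF3 using fun n => step (D n) (hD n) n
  refine ⟨F, fun n => ⟨hF1 n, hF2 n⟩, ?_⟩
  rw [dense_iff_inter_open]
  rintro U hU ⟨p, hp⟩
  obtain ⟨s, -, hs⟩ := exists_O_subset hU hp
  let n : ℕ := s.sup (fun i => i.1)
  have hsn : ∀ i ∈ s, i ∈ Ini n := fun i hi => Finset.le_sup (f := fun i : Idx => i.1) hi
  obtain ⟨x, hx1, hx2⟩ := hF3 n s (s.filter (fun i => p i = true)) hsn
    (fun i hi => hsn i (Finset.mem_filter.1 hi).1)
  exact ⟨x, hs hx2, Set.mem_iUnion.2 ⟨n, hx1⟩⟩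

open MeasureTheory in
/-- Cantor cubes satisfy the countable chain condition. -/
theorem ccc {ι : Type} (B : Set (Set (ι → Bool))) (hB : ∀ V ∈ B, IsOpen V ∧ V.Nonempty)
    (hd : B.PairwiseDisjoint id) : B.Countable := by
  classical
  have h1 : ∀ V : B, ∃ (s : Finset ι) (p : ι → Bool), (s : Set ι).pi (fun i => {p i}) ⊆ V.1 := by
    rintro ⟨V, hV⟩
    obtain ⟨p, hp⟩ := (hB V hV).2
    obtain ⟨s, u, hu, hsub⟩ := isOpen_pi_iff.1 (hB V hV).1 p hp
    refine ⟨s, p, fun x hx => hsub (fun i hi => ?_)⟩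
    have : x i = p i := hx i hi
    rw [this]
    exact (hu i hi).2
  choose s p hsp using h1
  let μ : ∀ _ : ι, Measure Bool := fun _ => (PMF.uniformOfFintype Bool).toMeasure
  have : ∀ i, IsProbabilityMeasure (μ i) := fun i => PMF.toMeasure.isProbabilityMeasure _
  have hpos : ∀ V : B, 0 < (Measure.infinitePi μ) ((s V : Set ι).pi (fun i => {p V i})) := by
    intro V
    rw [Measure.infinitePi_pi _ (fun i _ => MeasurableSet.singleton _)]
    rw [pos_iff_ne_zero, Finset.prod_ne_zero_iff]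
    intro i _
    simp only [μ]
    rw [PMF.toMeasure_apply_singleton _ _ (MeasurableSet.singleton _)]
    simp
  have hc := Measure.countable_meas_pos_of_disjoint_iUnion (μ := Measure.infinitePi μ)
    (As := fun V : B => (s V : Set ι).pi (fun i => {p V i}))
    (fun V => MeasurableSet.pi (s V).countable_toSet (fun i _ => MeasurableSet.singleton _))
    (fun V V' hne => (hd V.2 V'.2 (fun h => hne (Subtype.ext h))).mono (hsp V) (hsp V'))
  have : {i : B | 0 < (Measure.infinitePi μ) ((s i : Set ι).pi (fun j => {p i j}))} = Set.univ := by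
    ext V; simp [hpos V]
  rw [this] at hc
  exact Set.countable_coe_iff.1 (Set.countable_univ_iff.1 hc)

/-- Uncountable Cantor cubes have no countable pi-base. -/
theorem no_countable_pibase {ι : Type} [Uncountable ι] (B : Set (Set (ι → Bool)))
    (hB : ∀ V ∈ B, IsOpen V ∧ V.Nonempty) (hc : B.Countable)
    (hpi : ∀ U : Set (ι → Bool), IsOpen U → U.Nonempty → ∃ V ∈ B, V ⊆ U) : False := by
  classical
  have h1 : ∀ V : B, ∃ (s : Finset ι) (p : ι → Bool), ∀ x : ι → Bool,
      (∀ i ∈ s, x i = p i) → x ∈ V.1 := by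
    rintro ⟨V, hV⟩
    obtain ⟨p, hp⟩ := (hB V hV).2
    obtain ⟨s, u, hu, hsub⟩ := isOpen_pi_iff.1 (hB V hV).1 p hp
    refine ⟨s, p, fun x hx => hsub (fun i hi => ?_)⟩
    rw [hx i hi]
    exact (hu i hi).2
  choose s p hsp using h1
  have : Countable B := hc.to_subtype
  have hcs : (⋃ V : B, (s V : Set ι)).Countable :=
    Set.countable_iUnion (fun V => (s V).countable_toSet)
  obtain ⟨ξ, hξ⟩ : ∃ ξ, ξ ∉ (⋃ V : B, (s V : Set ι)) := by
    by_contra h
    push Not at h
    have : (⋃ V : B, (s V : Set ι)) = Set.univ := Set.eq_univ_of_forall h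
    rw [this] at hcs
    exact Set.not_countable_univ hcs
  obtain ⟨V, hV, hVU⟩ := hpi {x | x ξ = true} (isOpen_coord ξ true) ⟨fun _ => true, rfl⟩
  have hx : (fun i => if i = ξ then false else p ⟨V, hV⟩ i) ∈ V := by
    refine hsp ⟨V, hV⟩ _ (fun i hi => ?_)
    have : i ≠ ξ := by
      rintro rfl
      exact hξ (Set.mem_iUnion.2 ⟨⟨V, hV⟩, hi⟩)
    simp [this]
  have := hVU hx
  simp at this

theorem no_sigma_disjoint {ι : Type} [Uncountable ι] (B : ℕ → Set (Set (ι → Bool)))
    (hB : ∀ n, ∀ V ∈ B n, IsOpen V ∧ V.Nonempty) (hd : ∀ n, (B n).PairwiseDisjoint id)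
    (hpi : ∀ U : Set (ι → Bool), IsOpen U → U.Nonempty → ∃ n, ∃ V ∈ B n, V ⊆ U) : False := by
  refine no_countable_pibase (⋃ n, B n) ?_ (Set.countable_iUnion
    (fun n => ccc (B n) (hB n) (hd n))) ?_
  · intro V hV
    obtain ⟨n, hn⟩ := Set.mem_iUnion.1 hV
    exact hB n V hn
  · intro U hU hne
    obtain ⟨n, V, hV, hVU⟩ := hpi U hU hne
    exact ⟨V, Set.mem_iUnion.2 ⟨n, hV⟩, hVU⟩

theorem uncountable_idx : Uncountable Idx := by
  rw [← Cardinal.aleph0_lt_mk_iff]
  exact (aleph0_le_kap 0).trans_lt ((kap_lt_succ 0).trans_le (kap_le_idx 1))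

end Pool.Agent.W648.DSep
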